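import Mathlib

/-!
# MP_bacbeb_nt: iterating the average of the functions of Euler and Dedekind
-/

set_option autoImplicit false

namespace Pool.Agent.E8helper66.PH

/-- the function of Dedekind -/
def psi (n : ℕ) : ℕ := ∏ p ∈ n.primeFactors, p ^ (n.factorization p - 1) * (p + 1)

/-- the map -/
def f (n : ℕ) : ℕ := (Nat.totient n + psi n) / 2

lemma psi_mul {m n : ℕ} (h : m.Coprime n) : psi (m * n) = psi m * psi n := by
  unfold psi
  rw [h.primeFactors_mul, Finset.prod_union h.disjoint_primeFactors]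
  congr 1
  · refine Finset.prod_congr rfl fun p hp => ?_
    rw [Nat.factorization_eq_of_coprime_left h (Nat.mem_primeFactors_iff_mem_primeFactorsList.1 hp)]
  · refine Finset.prod_congr rfl fun p hp => ?_
    rw [Nat.factorization_eq_of_coprime_right h (Nat.mem_primeFactors_iff_mem_primeFactorsList.1 hp)]

lemma psi_pow {p : ℕ} (hp : p.Prime) (k : ℕ) : psi (p ^ (k + 1)) = p ^ k * (p + 1) := by
  unfold psi
  rw [Nat.primeFactors_prime_pow (Nat.succ_ne_zero k) hp, Finset.prod_singleton,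
    hp.factorization_pow, Finsupp.single_eq_same, Nat.add_sub_cancel]

lemma psi_prime {p : ℕ} (hp : p.Prime) : psi p = p + 1 := by
  have := psi_pow hp 0
  simpa using this

lemma psi_one : psi 1 = 1 := by simp [psi]

lemma F23 (x y m s : ℕ) (hm : Nat.Coprime 6 m) (hs : Nat.totient m + 6 * psi m = s) :
    f (2 ^ (x + 1) * 3 ^ (y + 1) * m) = 2 ^ x * 3 ^ y * s := by
  have h2 : Nat.Coprime 2 m := Nat.Coprime.coprime_dvd_left (show 2 ∣ 6 by norm_num) hm
  have h3 : Nat.Coprime 3 m := Nat.Coprime.coprime_dvd_left (show 3 ∣ 6 by norm_num) hm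
  have c1 : Nat.Coprime (2 ^ (x + 1)) (3 ^ (y + 1)) := Nat.Coprime.pow _ _ (by norm_num)
  have c2 : Nat.Coprime (2 ^ (x + 1) * 3 ^ (y + 1)) m :=
    Nat.Coprime.mul_left (Nat.Coprime.pow_left _ h2) (Nat.Coprime.pow_left _ h3)
  unfold f
  rw [Nat.totient_mul c2, Nat.totient_mul c1, psi_mul c2, psi_mul c1, psi_pow Nat.prime_two,
    psi_pow Nat.prime_three, Nat.totient_prime_pow_succ Nat.prime_two,
    Nat.totient_prime_pow_succ Nat.prime_three, ← hs]
  have e : 2 ^ x * (2 - 1) * (3 ^ y * (3 - 1)) * Nat.totient m +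
      2 ^ x * (2 + 1) * (3 ^ y * (3 + 1)) * psi m =
      (2 ^ x * 3 ^ y * (Nat.totient m + 6 * psi m)) * 2 := by
    rw [show 2 - 1 = 1 from rfl, show 3 - 1 = 2 from rfl]
    ring
  rw [e, Nat.mul_div_cancel _ two_pos]

lemma F2 (x m s : ℕ) (hm : Nat.Coprime 2 m) (hs : Nat.totient m + 3 * psi m = s * 2) :
    f (2 ^ (x + 1) * m) = 2 ^ x * s := by
  have c2 : Nat.Coprime (2 ^ (x + 1)) m := Nat.Coprime.pow_left _ hm
  unfold f
  rw [Nat.totient_mul c2, psi_mul c2, psi_pow Nat.prime_two,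
    Nat.totient_prime_pow_succ Nat.prime_two]
  have e : 2 ^ x * (2 - 1) * Nat.totient m + 2 ^ x * (2 + 1) * psi m =
      2 ^ x * (Nat.totient m + 3 * psi m) := by
    rw [show 2 - 1 = 1 from rfl]
    ring
  rw [e, hs, ← mul_assoc, Nat.mul_div_cancel _ two_pos]

lemma F3 (y m s : ℕ) (hm : Nat.Coprime 3 m) (hs : Nat.totient m + 2 * psi m = s) :
    f (3 ^ (y + 1) * m) = 3 ^ y * s := by
  have c2 : Nat.Coprime (3 ^ (y + 1)) m := Nat.Coprime.pow_left _ hm
  unfold f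
  rw [Nat.totient_mul c2, psi_mul c2, psi_pow Nat.prime_three,
    Nat.totient_prime_pow_succ Nat.prime_three, ← hs]
  have e : 3 ^ y * (3 - 1) * Nat.totient m + 3 ^ y * (3 + 1) * psi m =
      3 ^ y * (Nat.totient m + 2 * psi m) * 2 := by
    rw [show 3 - 1 = 2 from rfl]
    ring
  rw [e, Nat.mul_div_cancel _ two_pos]

/-- the orbit meets the orbit of `1488` -/
def Good (n : ℕ) : Prop := ∃ j k : ℕ, f^[j] n = f^[k] 1488

lemma Good.of_f {n : ℕ} (h : Good (f n)) : Good n := by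
  obtain ⟨j, k, e⟩ := h
  exact ⟨j + 1, k, by rw [Function.iterate_succ_apply]; exact e⟩

lemma good_of {n m : ℕ} (e : f n = m) (h : Good m) : Good n := Good.of_f (by rwa [e])

/-! ### the values -/

lemma v7 (x y : ℕ) : f (2 ^ (x + 1) * 3 ^ (y + 1) * 7) = 2 ^ (x + 1) * 3 ^ (y + 3) := by
  rw [F23 x y 7 54 (by norm_num) (by
    rw [psi_prime (by norm_num), Nat.totient_prime (by norm_num)])]
  ring

lemma v1 (x y : ℕ) : f (2 ^ (x + 1) * 3 ^ (y + 1)) = 2 ^ x * 3 ^ y * 7 := by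
  have := F23 x y 1 7 (by norm_num) (by rw [psi_one, Nat.totient_one])
  rwa [mul_one] at this

lemma v11 (x y : ℕ) : f (2 ^ (x + 1) * 3 ^ (y + 1) * 11) = 2 ^ (x + 1) * 3 ^ y * 41 := by
  rw [F23 x y 11 82 (by norm_num) (by
    rw [psi_prime (by norm_num), Nat.totient_prime (by norm_num)])]
  ring

lemma v41 (x y : ℕ) : f (2 ^ (x + 1) * 3 ^ (y + 1) * 41) = 2 ^ (x + 2) * 3 ^ y * 73 := by
  rw [F23 x y 41 292 (by norm_num) (by
    rw [psi_prime (by norm_num), Nat.totient_prime (by norm_num)])]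
  ring

lemma v73 (x y : ℕ) : f (2 ^ (x + 1) * 3 ^ (y + 1) * 73) = 2 ^ (x + 2) * 3 ^ (y + 1) * 43 := by
  rw [F23 x y 73 516 (by norm_num) (by
    rw [psi_prime (by norm_num), Nat.totient_prime (by norm_num)])]
  ring

lemma v43 (x y : ℕ) : f (2 ^ (x + 1) * 3 ^ (y + 1) * 43) = 2 ^ (x + 1) * 3 ^ (y + 2) * 17 := by
  rw [F23 x y 43 306 (by norm_num) (by
    rw [psi_prime (by norm_num), Nat.totient_prime (by norm_num)])]
  ring

lemma v17 (x y : ℕ) : f (2 ^ (x + 1) * 3 ^ (y + 1) * 17) = 2 ^ (x + 2) * 3 ^ y * 31 := by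
  rw [F23 x y 17 124 (by norm_num) (by
    rw [psi_prime (by norm_num), Nat.totient_prime (by norm_num)])]
  ring

lemma v31 (x y : ℕ) : f (2 ^ (x + 1) * 3 ^ (y + 1) * 31) = 2 ^ (x + 1) * 3 ^ (y + 1) * 37 := by
  rw [F23 x y 31 222 (by norm_num) (by
    rw [psi_prime (by norm_num), Nat.totient_prime (by norm_num)])]
  ring

lemma v37 (x y : ℕ) : f (2 ^ (x + 1) * 3 ^ (y + 1) * 37) = 2 ^ (x + 3) * 3 ^ (y + 1) * 11 := by
  rw [F23 x y 37 264 (by norm_num) (by
    rw [psi_prime (by norm_num), Nat.totient_prime (by norm_num)])]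
  ring

lemma v49 (x y : ℕ) : f (2 ^ (x + 1) * 3 ^ (y + 1) * 49) = 2 ^ (x + 1) * 3 ^ (y + 3) * 7 := by
  have h1 : psi 49 = 56 := by
    have := psi_pow (show Nat.Prime 7 by norm_num) 1
    norm_num at this
    exact this
  have h2 : Nat.totient 49 = 42 := by
    have := Nat.totient_prime_pow_succ (show Nat.Prime 7 by norm_num) 1
    norm_num at this
    exact this
  rw [F23 x y 49 378 (by norm_num) (by rw [h1, h2])]
  ring

lemma v5 (x y : ℕ) : f (2 ^ (x + 1) * 3 ^ (y + 1) * 5) = 2 ^ (x + 3) * 3 ^ y * 5 := by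
  rw [F23 x y 5 40 (by norm_num) (by
    rw [psi_prime (by norm_num), Nat.totient_prime (by norm_num)])]
  ring

lemma w73 (x : ℕ) : f (2 ^ (x + 1) * 73) = 2 ^ x * 3 * 49 := by
  rw [F2 x 73 147 (by norm_num) (by
    rw [psi_prime (by norm_num), Nat.totient_prime (by norm_num)])]
  ring

lemma w7 (x : ℕ) : f (2 ^ (x + 1) * 7) = 2 ^ x * 3 * 5 := by
  rw [F2 x 7 15 (by norm_num) (by
    rw [psi_prime (by norm_num), Nat.totient_prime (by norm_num)])]
  ring

lemma w5 (x : ℕ) : f (2 ^ (x + 1) * 5) = 2 ^ x * 11 := by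
  rw [F2 x 5 11 (by norm_num) (by
    rw [psi_prime (by norm_num), Nat.totient_prime (by norm_num)])]

lemma w11 (x : ℕ) : f (2 ^ (x + 1) * 11) = 2 ^ x * 23 := by
  rw [F2 x 11 23 (by norm_num) (by
    rw [psi_prime (by norm_num), Nat.totient_prime (by norm_num)])]

lemma w23 (x : ℕ) : f (2 ^ (x + 1) * 23) = 2 ^ x * 47 := by
  rw [F2 x 23 47 (by norm_num) (by
    rw [psi_prime (by norm_num), Nat.totient_prime (by norm_num)])]

lemma w47 (x : ℕ) : f (2 ^ (x + 1) * 47) = 2 ^ x * 95 := by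
  rw [F2 x 47 95 (by norm_num) (by
    rw [psi_prime (by norm_num), Nat.totient_prime (by norm_num)])]

lemma psi95 : psi 95 = 120 ∧ Nat.totient 95 = 72 := by
  have h : (95 : ℕ) = 5 * 19 := by norm_num
  have hc : Nat.Coprime 5 19 := by norm_num
  rw [h, psi_mul hc, Nat.totient_mul hc, psi_prime (by norm_num), psi_prime (by norm_num),
    Nat.totient_prime (by norm_num), Nat.totient_prime (by norm_num)]
  norm_num

lemma w95 (x : ℕ) : f (2 ^ (x + 1) * 95) = 2 ^ (x + 3) * 27 := by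
  rw [F2 x 95 216 (by norm_num) (by rw [psi95.1, psi95.2])]
  ring

lemma f95 : f 95 = 96 := by
  unfold f
  rw [psi95.1, psi95.2]

lemma u7 (y : ℕ) : f (3 ^ (y + 1) * 7) = 2 * 3 ^ y * 11 := by
  rw [F3 y 7 22 (by norm_num) (by
    rw [psi_prime (by norm_num), Nat.totient_prime (by norm_num)])]
  ring

end Pool.Agent.E8helper66.PH
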