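import Pool.Agent.E8helper66.PH.Fam

/-!
# MP_bacbeb_nt: the numbers `2 ^ a * 3 ^ b * m` with `m` a power of `7` or in the cycle
-/

set_option autoImplicit false

namespace Pool.Agent.E8helper66.PH

/-- `2 ^ w * 3 ^ (even) * 11` -/
lemma good11e (m w : ℕ) : Good (2 ^ (w + 1) * 3 ^ (2 * m + 2) * 11) := by
  apply good_even m w
  apply good_two
  have e2 : (3 : ℕ) ^ 5 = 3 ^ (3 + 2) := rfl
  rw [e2]
  exact good23 _ 3 (by omega)

lemma f335 : f 335 = 336 := by
  have hc : Nat.Coprime 5 67 := by norm_num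
  have h : (335 : ℕ) = 5 * 67 := by norm_num
  unfold f
  rw [h, psi_mul hc, Nat.totient_mul hc, psi_prime (by norm_num), psi_prime (by norm_num),
    Nat.totient_prime (by norm_num), Nat.totient_prime (by norm_num)]

/-- `2 ^ a * 3 * 11` -/
lemma good11o (x : ℕ) : Good (2 ^ (x + 3) * 3 ^ 1 * 11) := by
  have step : ∀ x, Good (2 ^ (x + 5) * 3 ^ 1 * 11) → Good (2 ^ (x + 4) * 3 ^ 1 * 11) := by
    intro x h
    refine good_of (v11 (x + 3) 0) ?_
    have e1 : 2 ^ (x + 3 + 1) * 3 ^ 0 * 41 = 2 ^ ((x + 3) + 1) * 41 := by ring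
    rw [e1]
    refine good_of (w41 (x + 3)) ?_
    refine good_of (w83 (x + 2)) ?_
    refine good_of (w167 (x + 1)) ?_
    refine good_of (w335 x) ?_
    have e2 : 2 ^ (x + 3) * 3 * 31 = 2 ^ ((x + 2) + 1) * 3 ^ (0 + 1) * 31 := by ring
    rw [e2]
    refine good_of (v31 (x + 2) 0) ?_
    refine good_of (v37 (x + 2) 0) ?_
    exact h
  have h6 : ∀ k, Good (2 ^ (k + 6) * 3 ^ 1 * 11) := fun k => by
    have := good_base k
    simpa using this
  rcases Nat.lt_or_ge x 3 with hx | hx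
  · have h5 : Good (2 ^ (1 + 4) * 3 ^ 1 * 11) := step 1 (h6 0)
    have h4 : Good (2 ^ (0 + 4) * 3 ^ 1 * 11) := step 0 h5
    have h3 : Good (2 ^ (0 + 3) * 3 ^ 1 * 11) := by
      refine good_of (v11 2 0) ?_
      have e1 : 2 ^ (2 + 1) * 3 ^ 0 * 41 = 2 ^ (2 + 1) * 41 := by norm_num
      rw [e1]
      refine good_of (w41 2) ?_
      refine good_of (w83 1) ?_
      refine good_of (w167 0) ?_
      have e2 : 2 ^ 0 * 335 = 335 := by norm_num
      rw [e2]
      refine good_of f335 ?_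
      have := good237 1 3 0 (by norm_num)
      norm_num at this
      exact this
    have : x = 0 ∨ x = 1 ∨ x = 2 := by omega
    rcases this with rfl | rfl | rfl
    · exact h3
    · exact h4
    · exact h5
  · obtain ⟨k, rfl⟩ : ∃ k, x = k + 3 := ⟨x - 3, by omega⟩
    exact h6 k

lemma good11 (x y : ℕ) (h : 1 ≤ y ∨ 2 ≤ x) : Good (2 ^ (x + 1) * 3 ^ (y + 1) * 11) := by
  rcases Nat.even_or_odd y with ⟨m, hm⟩ | ⟨m, hm⟩
  · obtain rfl : y = 2 * m := by omega
    rcases Nat.eq_zero_or_pos m with rfl | hm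
    · obtain ⟨k, rfl⟩ : ∃ k, x = k + 2 := ⟨x - 2, by omega⟩
      exact good11o k
    · exact good_odd m x (by omega)
  · obtain rfl : y = 2 * m + 1 := hm
    exact good11e m x

lemma good37 (x y : ℕ) : Good (2 ^ (x + 1) * 3 ^ (y + 1) * 37) :=
  good_of (v37 x y) (good11 (x + 2) y (by omega))

lemma good31 (x y : ℕ) : Good (2 ^ (x + 1) * 3 ^ (y + 1) * 31) :=
  good_of (v31 x y) (good37 x y)

lemma w31 (x : ℕ) : f (2 ^ (x + 1) * 31) = 2 ^ x * 3 ^ 2 * 7 := by
  rw [F2 x 31 63 (by norm_num) (by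
    rw [psi_prime (by norm_num), Nat.totient_prime (by norm_num)])]
  ring

lemma good17 (x y : ℕ) : Good (2 ^ (x + 1) * 3 ^ (y + 1) * 17) := by
  refine good_of (v17 x y) ?_
  rcases Nat.eq_zero_or_pos y with rfl | hy
  · have e : 2 ^ (x + 2) * 3 ^ 0 * 31 = 2 ^ ((x + 1) + 1) * 31 := by ring
    rw [e]
    refine good_of (w31 (x + 1)) ?_
    have := good237 1 x 1 (by omega)
    rw [pow_one] at this
    exact this
  · obtain ⟨t, rfl⟩ : ∃ t, y = t + 1 := ⟨y - 1, by omega⟩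
    exact good31 (x + 1) t

lemma good43 (x y : ℕ) : Good (2 ^ (x + 1) * 3 ^ (y + 1) * 43) :=
  good_of (v43 x y) (good17 x (y + 1))

lemma good73 (x y : ℕ) : Good (2 ^ (x + 1) * 3 ^ (y + 1) * 73) :=
  good_of (v73 x y) (good43 (x + 1) y)

lemma good41 (x y : ℕ) : Good (2 ^ (x + 1) * 3 ^ (y + 1) * 41) := by
  refine good_of (v41 x y) ?_
  rcases Nat.eq_zero_or_pos y with rfl | hy
  · have e : 2 ^ (x + 2) * 3 ^ 0 * 73 = 2 ^ ((x + 1) + 1) * 73 := by ring
    rw [e]
    refine good_of (w73 (x + 1)) ?_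
    have := good237 2 x 0 (by omega)
    have e2 : 2 ^ (x + 1) * 3 * 49 = 2 ^ (x + 1) * 3 ^ (0 + 1) * 7 ^ 2 := by ring
    rw [e2]
    exact this
  · obtain ⟨t, rfl⟩ : ∃ t, y = t + 1 := ⟨y - 1, by omega⟩
    exact good73 (x + 1) t

/-- the exceptions -/
def Exc : Finset ℕ := {6, 12, 18, 24, 36, 42, 54, 66, 132}

lemma exc (n : ℕ) (hn : n ∈ Exc) : ∃ q, Reach n q ∧ f q = q ∧ IsPrimePow q := by
  have r7 := small 1 1 0 (by norm_num) (by norm_num) (by norm_num)
  have r12 := small 2 1 0 (by norm_num) (by norm_num) (by norm_num)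
  have r18 := small 1 2 0 (by norm_num) (by norm_num) (by norm_num)
  have r24 := small 3 1 0 (by norm_num) (by norm_num) (by norm_num)
  have r36 := small 2 2 0 (by norm_num) (by norm_num) (by norm_num)
  have r54 := small 1 3 0 (by norm_num) (by norm_num) (by norm_num)
  have r42 := small 1 1 1 (by norm_num) (by norm_num) (by norm_num)
  norm_num at r7 r12 r18 r24 r36 r54 r42
  have pp : ∀ q : ℕ, q.Prime → f q = q ∧ IsPrimePow q := fun q hq => ⟨fp hq, hq.isPrimePow⟩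
  have r66 : Reach 66 83 := by
    refine Reach.head (m := 82) (by have := v11 0 0; norm_num at this; exact this) ?_
    exact Reach.head (by have := w41 0; norm_num at this; exact this) (Reach.refl _)
  have r132 : Reach 132 167 := by
    refine Reach.head (m := 164) (by have := v11 1 0; norm_num at this; exact this) ?_
    refine Reach.head (m := 166) (by have := w41 1; norm_num at this; exact this) ?_
    exact Reach.head (by have := w83 0; norm_num at this; exact this) (Reach.refl _)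
  unfold Exc at hn
  simp only [Finset.mem_insert, Finset.mem_singleton] at hn
  rcases hn with rfl | rfl | rfl | rfl | rfl | rfl | rfl | rfl | rfl
  · exact r7
  · exact r12
  · exact r18
  · exact r24
  · exact r36
  · exact r42
  · exact r54
  · exact ⟨83, r66, pp 83 (by norm_num)⟩
  · exact ⟨167, r132, pp 167 (by norm_num)⟩

lemma small_mem (a b c : ℕ) (ha : 1 ≤ a) (hb : 1 ≤ b) (h : a + b + 2 * c < 5) :
    2 ^ a * 3 ^ b * 7 ^ c ∈ Exc := by
  have hc : c = 0 ∨ c = 1 := by omega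
  rcases hc with rfl | rfl
  · have : (a = 1 ∧ b = 1) ∨ (a = 1 ∧ b = 2) ∨ (a = 1 ∧ b = 3) ∨ (a = 2 ∧ b = 1) ∨
        (a = 2 ∧ b = 2) ∨ (a = 3 ∧ b = 1) := by omega
    rcases this with ⟨rfl, rfl⟩ | ⟨rfl, rfl⟩ | ⟨rfl, rfl⟩ | ⟨rfl, rfl⟩ | ⟨rfl, rfl⟩ | ⟨rfl, rfl⟩ <;>
      (norm_num [Exc])
  · obtain ⟨rfl, rfl⟩ : a = 1 ∧ b = 1 := by omega
    norm_num [Exc]

theorem main (a b m : ℕ) (ha : 1 ≤ a) (hb : 1 ≤ b)
    (hm : (∃ c, m = 7 ^ c) ∨ m ∈ ({11, 17, 31, 37, 41, 43, 73} : Finset ℕ))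
    (hn : 2 ^ a * 3 ^ b * m ∉ Exc) : Good (2 ^ a * 3 ^ b * m) := by
  obtain ⟨x, rfl⟩ : ∃ x, a = x + 1 := ⟨a - 1, by omega⟩
  obtain ⟨y, rfl⟩ : ∃ y, b = y + 1 := ⟨b - 1, by omega⟩
  rcases hm with ⟨c, rfl⟩ | hm
  · apply good237
    by_contra hlt
    exact hn (small_mem (x + 1) (y + 1) c ha hb (by omega))
  · simp only [Finset.mem_insert, Finset.mem_singleton] at hm
    rcases hm with rfl | rfl | rfl | rfl | rfl | rfl | rfl
    · apply good11
      by_contra hlt
      apply hn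
      have : y = 0 ∧ (x = 0 ∨ x = 1) := by omega
      obtain ⟨rfl, rfl | rfl⟩ := this <;> norm_num [Exc]
    · exact good17 x y
    · exact good31 x y
    · exact good37 x y
    · exact good41 x y
    · exact good43 x y
    · exact good73 x y

end Pool.Agent.E8helper66.PH
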