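import Pool.Agent.E8helper66.PH.Orb

/-!
# MP_bacbeb_nt: the families
-/

set_option autoImplicit false

namespace Pool.Agent.E8helper66.PH

lemma cop6_7 (c : ℕ) : Nat.Coprime 6 (7 ^ c) := Nat.Coprime.pow_right _ (by norm_num)

lemma cop6_5 (c : ℕ) : Nat.Coprime 6 (5 ^ c) := Nat.Coprime.pow_right _ (by norm_num)

lemma cop2_5 (c : ℕ) : Nat.Coprime 2 (5 ^ c) := Nat.Coprime.pow_right _ (by norm_num)

lemma v7c (x y c : ℕ) : f (2 ^ (x + 1) * 3 ^ (y + 1) * 7 ^ (c + 1)) =
    2 ^ (x + 1) * 3 ^ (y + 3) * 7 ^ c := by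
  rw [F23 x y _ (54 * 7 ^ c) (cop6_7 _) (by
    rw [psi_pow (by norm_num), Nat.totient_prime_pow_succ (by norm_num),
      show 7 - 1 = 6 from rfl]
    ring)]
  ring

lemma v5c (x y c : ℕ) : f (2 ^ (x + 1) * 3 ^ (y + 1) * 5 ^ (c + 1)) =
    2 ^ (x + 3) * 3 ^ y * 5 ^ (c + 1) := by
  rw [F23 x y _ (40 * 5 ^ c) (cop6_5 _) (by
    rw [psi_pow (by norm_num), Nat.totient_prime_pow_succ (by norm_num),
      show 5 - 1 = 4 from rfl]
    ring)]
  ring

lemma w5c (x c : ℕ) : f (2 ^ (x + 1) * 5 ^ (c + 2)) = 2 ^ x * (5 ^ (c + 1) * 11) := by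
  rw [F2 x _ (11 * 5 ^ (c + 1)) (cop2_5 _) (by
    rw [psi_pow (by norm_num), Nat.totient_prime_pow_succ (by norm_num),
      show 5 - 1 = 4 from rfl]
    ring)]
  ring

lemma w511c (x c : ℕ) : f (2 ^ (x + 1) * (5 ^ (c + 1) * 11)) = 2 ^ (x + 7) * 5 ^ c := by
  have hc : Nat.Coprime (5 ^ (c + 1)) 11 := Nat.Coprime.pow_left _ (by norm_num)
  rw [F2 x _ (128 * 5 ^ c) (Nat.Coprime.mul_right (cop2_5 _) (by norm_num)) (by
    rw [psi_mul hc, Nat.totient_mul hc, psi_pow (by norm_num),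
      Nat.totient_prime_pow_succ (by norm_num), psi_prime (by norm_num),
      Nat.totient_prime (by norm_num), show 5 - 1 = 4 from rfl, show 11 - 1 = 10 from rfl]
    ring)]
  ring

lemma good237 (c x y : ℕ) (h : 3 ≤ x + y + 2 * c) : Good (2 ^ (x + 1) * 3 ^ (y + 1) * 7 ^ c) := by
  induction c generalizing y with
  | zero =>
    rw [pow_zero, mul_one]
    rcases Nat.eq_zero_or_pos y with rfl | hy
    · have := good3 x (by omega)
      simpa using this
    · obtain ⟨t, rfl⟩ : ∃ t, y = t + 1 := ⟨y - 1, by omega⟩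
      exact good23 x t (by omega)
  | succ c ih =>
    refine good_of (v7c x y c) ?_
    exact ih (y + 2) (by omega)

/-! ### reaching a value -/

def Reach (n m : ℕ) : Prop := ∃ j, f^[j] n = m

lemma Reach.refl (n : ℕ) : Reach n n := ⟨0, rfl⟩

lemma Reach.head {n m k : ℕ} (e : f n = m) (h : Reach m k) : Reach n k := by
  obtain ⟨j, hj⟩ := h
  exact ⟨j + 1, by rw [Function.iterate_succ_apply, e, hj]⟩

lemma Reach.trans {n m k : ℕ} (h1 : Reach n m) (h2 : Reach m k) : Reach n k := by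
  obtain ⟨i, rfl⟩ := h1
  obtain ⟨j, rfl⟩ := h2
  exact ⟨j + i, Function.iterate_add_apply f j i n⟩

lemma Reach.good {n m : ℕ} (h : Reach n m) (hm : Good m) : Good n := by
  obtain ⟨i, rfl⟩ := h
  obtain ⟨j, k, e⟩ := hm
  exact ⟨j + i, k, by rw [Function.iterate_add_apply, e]⟩

lemma reach3 (y x c : ℕ) : Reach (2 ^ (x + 1) * 3 ^ y * 5 ^ (c + 1))
    (2 ^ (x + 2 * y + 1) * 5 ^ (c + 1)) := by
  induction y generalizing x with
  | zero => simpa using Reach.refl _
  | succ y ih =>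
    refine Reach.head (v5c x y c) ?_
    have := ih (x + 2)
    have e : x + 2 + 2 * y + 1 = x + 2 * (y + 1) + 1 := by ring
    rwa [e] at this

lemma reach5 (x c : ℕ) : Reach (2 ^ (x + 2) * 5 ^ (c + 2)) (2 ^ (x + 7) * 5 ^ c) := by
  refine Reach.head (w5c (x + 1) c) ?_
  exact Reach.head (w511c x c) (Reach.refl _)

lemma reach_even (m x : ℕ) : Reach (2 ^ (x + 2) * 5 ^ (2 * m)) (2 ^ (x + 2 + 5 * m)) := by
  induction m generalizing x with
  | zero => simpa using Reach.refl _
  | succ m ih =>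
    have h1 := reach5 x (2 * m)
    have h2 := ih (x + 5)
    have e : x + 5 + 2 + 5 * m = x + 2 + 5 * (m + 1) := by ring
    rw [e] at h2
    exact h1.trans h2

lemma reach_odd (m x : ℕ) : Reach (2 ^ (x + 2) * 5 ^ (2 * m + 1)) (2 ^ (x + 2 + 5 * m) * 5) := by
  induction m generalizing x with
  | zero => simpa using Reach.refl _
  | succ m ih =>
    have h1 := reach5 x (2 * m + 1)
    have h2 := ih (x + 5)
    have e : x + 5 + 2 + 5 * m = x + 2 + 5 * (m + 1) := by ring
    rw [e] at h2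
    exact h1.trans h2

lemma good80 : Good (2 ^ 4 * 5) := by
  refine good_of (w5 3) ?_
  refine good_of (w11 2) ?_
  refine good_of (w23 1) ?_
  refine good_of (w47 0) ?_
  have e4 : 2 ^ 0 * 95 = 95 := by norm_num
  rw [e4]
  refine good_of f95 ?_
  have := good3 4 (by norm_num)
  norm_num at this
  exact this

lemma good5' (x : ℕ) : Good (2 ^ (x + 4) * 5) := by
  rcases Nat.eq_zero_or_pos x with rfl | hx
  · exact good80
  · obtain ⟨t, rfl⟩ : ∃ t, x = t + 1 := ⟨x - 1, by omega⟩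
    exact good5 t

lemma good235 (a b m : ℕ) (ha : 1 ≤ a) (h : 4 ≤ a + 2 * b) :
    Good (2 ^ a * 3 ^ b * 5 ^ (2 * m + 1)) := by
  obtain ⟨x, rfl⟩ : ∃ x, a = x + 1 := ⟨a - 1, by omega⟩
  have h1 := reach3 b x (2 * m)
  obtain ⟨t, ht⟩ : ∃ t, x + 2 * b + 1 = t + 4 := ⟨x + 2 * b + 1 - 4, by omega⟩
  rw [ht] at h1
  have h2 := reach_odd m (t + 2)
  refine h1.good (h2.good ?_)
  have e : t + 2 + 2 + 5 * m = (t + 5 * m) + 4 := by ring
  rw [e]
  exact good5' _

lemma reach235 (a b m : ℕ) (ha : 1 ≤ a) (hm : 1 ≤ m) (h : 2 ≤ a + 2 * b) :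
    Reach (2 ^ a * 3 ^ b * 5 ^ (2 * m)) (2 ^ (a + 2 * b + 5 * m)) := by
  obtain ⟨x, rfl⟩ : ∃ x, a = x + 1 := ⟨a - 1, by omega⟩
  obtain ⟨s, rfl⟩ : ∃ s, m = s + 1 := ⟨m - 1, by omega⟩
  have h1 := reach3 b x (2 * s + 1)
  obtain ⟨t, ht⟩ : ∃ t, x + 2 * b + 1 = t + 2 := ⟨x + 2 * b + 1 - 2, by omega⟩
  rw [ht] at h1
  have h2 := reach_even (s + 1) t
  have e : 2 * (s + 1) = 2 * s + 1 + 1 := by ring
  have e2 : x + 1 + 2 * b + 5 * (s + 1) = t + 2 + 5 * (s + 1) := by omega
  rw [e2]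
  rw [e] at h2 ⊢
  exact h1.trans h2

/-! ### orbits which become constant -/

lemma fix_pow {p : ℕ} (hp : p.Prime) (k : ℕ) : f (p ^ (k + 1)) = p ^ (k + 1) := by
  unfold f
  rw [psi_pow hp, Nat.totient_prime_pow_succ hp]
  have h1 : p - 1 + (p + 1) = p * 2 := by have := hp.one_lt; omega
  rw [← mul_add, h1, ← mul_assoc, Nat.mul_div_cancel _ two_pos, pow_succ]

lemma fix_iter {q : ℕ} (hq : f q = q) (j : ℕ) : f^[j] q = q := Function.iterate_fixed hq j

lemma not_good {n q : ℕ} (h : Reach n q) (hq : f q = q) : ¬ Good n := by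
  rintro ⟨i, k, e⟩
  obtain ⟨j, hj⟩ := h
  have h1 : f^[j + k] 1488 = q := by
    rw [Function.iterate_add_apply, ← e, ← Function.iterate_add_apply, add_comm j i,
      Function.iterate_add_apply, hj, fix_iter hq]
  have h2 : ∀ t, f^[t + (j + k)] 1488 = q := by
    intro t
    rw [Function.iterate_add_apply, h1, fix_iter hq]
  have h3 := h2 (6 * (j + k))
  have h4 := h2 (6 * (j + k) + 7)
  have e3 : 6 * (j + k) + (j + k) = 7 * (j + k) := by ring
  have e4 : 6 * (j + k) + 7 + (j + k) = 7 * (j + k + 1) := by ring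
  rw [e3, orb] at h3
  rw [e4, orb] at h4
  rw [← h4, pow_succ] at h3
  have : 0 < 2 ^ (j + k) := by positivity
  omega

lemma fp {q : ℕ} (hq : q.Prime) : f q = q := by simpa using fix_pow hq 0

lemma f15 : f 15 = 16 := by
  have h : (15 : ℕ) = 3 ^ (0 + 1) * 5 := by norm_num
  rw [h, F3 0 5 16 (by norm_num) (by
    rw [psi_prime (by norm_num), Nat.totient_prime (by norm_num)])]
  norm_num

lemma f21 : f 21 = 22 := by
  have h : (21 : ℕ) = 3 ^ (0 + 1) * 7 := by norm_num
  rw [h, F3 0 7 22 (by norm_num) (by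
    rw [psi_prime (by norm_num), Nat.totient_prime (by norm_num)])]
  norm_num

lemma f63 : f 63 = 66 := by
  have := u7 1
  norm_num at this
  exact this

/-- the small numbers -/
lemma small (a b c : ℕ) (ha : 1 ≤ a) (hb : 1 ≤ b) (h : a + b + 2 * c < 5) :
    ∃ q, Reach (2 ^ a * 3 ^ b * 7 ^ c) q ∧ f q = q ∧ IsPrimePow q := by
  have r7 : Reach 6 7 := Reach.head (by have := v1 0 0; norm_num at this; exact this) (Reach.refl _)
  have r12 : Reach 12 16 := by
    refine Reach.head (m := 14) (by have := v1 1 0; norm_num at this; exact this) ?_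
    refine Reach.head (m := 15) (by have := w7 0; norm_num at this; exact this) ?_
    exact Reach.head f15 (Reach.refl _)
  have r18 : Reach 18 23 := by
    refine Reach.head (m := 21) (by have := v1 0 1; norm_num at this; exact this) ?_
    refine Reach.head f21 ?_
    exact Reach.head (by have := w11 0; norm_num at this; exact this) (Reach.refl _)
  have r24 : Reach 24 47 := by
    refine Reach.head (m := 28) (by have := v1 2 0; norm_num at this; exact this) ?_
    refine Reach.head (m := 30) (by have := w7 1; norm_num at this; exact this) ?_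
    refine Reach.head (m := 40) (by have := v5 0 0; norm_num at this; exact this) ?_
    refine Reach.head (m := 44) (by have := w5 2; norm_num at this; exact this) ?_
    refine Reach.head (m := 46) (by have := w11 1; norm_num at this; exact this) ?_
    exact Reach.head (by have := w23 0; norm_num at this; exact this) (Reach.refl _)
  have r54 : Reach 54 83 := by
    refine Reach.head (m := 63) (by have := v1 0 2; norm_num at this; exact this) ?_
    refine Reach.head f63 ?_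
    refine Reach.head (m := 82) (by have := v11 0 0; norm_num at this; exact this) ?_
    exact Reach.head (by have := w41 0; norm_num at this; exact this) (Reach.refl _)
  have r42 : Reach 42 83 := Reach.head (by have := v7 0 0; norm_num at this; exact this) r54
  have r36 : Reach 36 83 := Reach.head (by have := v1 1 1; norm_num at this; exact this) r42
  have pp : ∀ q : ℕ, q.Prime → f q = q ∧ IsPrimePow q := fun q hq => ⟨fp hq, hq.isPrimePow⟩
  have p16 : f 16 = 16 ∧ IsPrimePow 16 := by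
    refine ⟨by have := fix_pow Nat.prime_two 3; norm_num at this; exact this, ?_⟩
    have : (16 : ℕ) = 2 ^ 4 := by norm_num
    rw [this]
    exact Nat.prime_two.isPrimePow.pow (by norm_num)
  have h7 := pp 7 (by norm_num)
  have h23 := pp 23 (by norm_num)
  have h47 := pp 47 (by norm_num)
  have h83 := pp 83 (by norm_num)
  have hc : c = 0 ∨ c = 1 := by omega
  rcases hc with rfl | rfl
  · have : (a = 1 ∧ b = 1) ∨ (a = 1 ∧ b = 2) ∨ (a = 1 ∧ b = 3) ∨ (a = 2 ∧ b = 1) ∨
        (a = 2 ∧ b = 2) ∨ (a = 3 ∧ b = 1) := by omega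
    rcases this with ⟨rfl, rfl⟩ | ⟨rfl, rfl⟩ | ⟨rfl, rfl⟩ | ⟨rfl, rfl⟩ | ⟨rfl, rfl⟩ | ⟨rfl, rfl⟩
    · exact ⟨7, by norm_num; exact r7, h7⟩
    · exact ⟨23, by norm_num; exact r18, h23⟩
    · exact ⟨83, by norm_num; exact r54, h83⟩
    · exact ⟨16, by norm_num; exact r12, p16⟩
    · exact ⟨83, by norm_num; exact r36, h83⟩
    · exact ⟨47, by norm_num; exact r24, h47⟩
  · obtain ⟨rfl, rfl⟩ : a = 1 ∧ b = 1 := by omega
    exact ⟨83, by norm_num; exact r42, h83⟩

end Pool.Agent.E8helper66.PH
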