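import Pool.Agent.E8helper66.PH.Fam

/-!
# MP_bacbeb_nt: the second family, all cases
-/

set_option autoImplicit false

namespace Pool.Agent.E8helper66.PH

lemma good235' (a b m : ℕ) (ha : 1 ≤ a) (h2 : 2 ≤ a + 2 * b) (h : 4 ≤ a + 2 * b + 4 * m) :
    Good (2 ^ a * 3 ^ b * 5 ^ (2 * m + 1)) := by
  obtain ⟨x, rfl⟩ : ∃ x, a = x + 1 := ⟨a - 1, by omega⟩
  have h1 := reach3 b x (2 * m)
  obtain ⟨t, ht⟩ : ∃ t, x + 2 * b + 1 = t + 2 := ⟨x + 2 * b + 1 - 2, by omega⟩
  rw [ht] at h1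
  have h2 := reach_odd m t
  refine h1.good (h2.good ?_)
  obtain ⟨s, hs⟩ : ∃ s, t + 2 + 5 * m = s + 4 := ⟨t + 2 + 5 * m - 4, by omega⟩
  rw [hs]
  exact good5' _

lemma small5 (a b : ℕ) (ha : 1 ≤ a) (h2 : 2 ≤ a + 2 * b) (h : a + 2 * b < 4) :
    ∃ q, Reach (2 ^ a * 3 ^ b * 5) q ∧ f q = q ∧ IsPrimePow q := by
  have r44 : Reach 44 47 := by
    refine Reach.head (m := 46) (by have := w11 1; norm_num at this; exact this) ?_
    exact Reach.head (by have := w23 0; norm_num at this; exact this) (Reach.refl _)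
  have r40 : Reach 40 47 := Reach.head (by have := w5 2; norm_num at this; exact this) r44
  have r30 : Reach 30 47 := Reach.head (by have := v5 0 0; norm_num at this; exact this) r40
  have r20 : Reach 20 23 := by
    refine Reach.head (m := 22) (by have := w5 1; norm_num at this; exact this) ?_
    exact Reach.head (by have := w11 0; norm_num at this; exact this) (Reach.refl _)
  have pp : ∀ q : ℕ, q.Prime → f q = q ∧ IsPrimePow q := fun q hq => ⟨fp hq, hq.isPrimePow⟩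
  have : (a = 2 ∧ b = 0) ∨ (a = 3 ∧ b = 0) ∨ (a = 1 ∧ b = 1) := by omega
  rcases this with ⟨rfl, rfl⟩ | ⟨rfl, rfl⟩ | ⟨rfl, rfl⟩
  · exact ⟨23, by norm_num; exact r20, pp 23 (by norm_num)⟩
  · exact ⟨47, by norm_num; exact r40, pp 47 (by norm_num)⟩
  · exact ⟨47, by norm_num; exact r30, pp 47 (by norm_num)⟩

/-- the numbers of the second family whose orbit becomes constant -/
lemma const5 (a b c : ℕ) (ha : 1 ≤ a) (hc : 1 ≤ c) (h2 : 2 ≤ a + 2 * b)
    (h : ¬ (Odd c ∧ 6 ≤ a + 2 * b + 2 * c)) :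
    ∃ q, Reach (2 ^ a * 3 ^ b * 5 ^ c) q ∧ f q = q ∧ IsPrimePow q := by
  rcases Nat.even_or_odd c with ⟨m, hm⟩ | ho
  · obtain rfl : c = 2 * m := by omega
    have h4 : a + 2 * b + 5 * m - 1 + 1 = a + 2 * b + 5 * m := by omega
    have h3 := fix_pow Nat.prime_two (a + 2 * b + 5 * m - 1)
    rw [h4] at h3
    exact ⟨_, reach235 a b m ha (by omega) h2, h3, Nat.prime_two.isPrimePow.pow (by omega)⟩
  · have h3 : a + 2 * b + 2 * c < 6 := by
      by_contra h4
      exact h ⟨ho, by omega⟩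
    obtain rfl : c = 1 := by
      obtain ⟨m, rfl⟩ := ho
      omega
    rw [pow_one]
    exact small5 a b ha h2 (by omega)

end Pool.Agent.E8helper66.PH
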