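import Pool.Agent.E8helper66.PH.Bas

/-!
# MP_bacbeb_nt: orbits of numbers without prime factors other than `2`, `3`, `7` or `2`, `3`, `5`
-/

set_option autoImplicit false

namespace Pool.Agent.E8helper66.PH

lemma w167 (x : ℕ) : f (2 ^ (x + 1) * 167) = 2 ^ x * 335 := by
  rw [F2 x 167 335 (by norm_num) (by
    rw [psi_prime (by norm_num), Nat.totient_prime (by norm_num)])]

lemma w41 (x : ℕ) : f (2 ^ (x + 1) * 41) = 2 ^ x * 83 := by
  rw [F2 x 41 83 (by norm_num) (by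
    rw [psi_prime (by norm_num), Nat.totient_prime (by norm_num)])]

lemma w83 (x : ℕ) : f (2 ^ (x + 1) * 83) = 2 ^ x * 167 := by
  rw [F2 x 83 167 (by norm_num) (by
    rw [psi_prime (by norm_num), Nat.totient_prime (by norm_num)])]

lemma w335 (x : ℕ) : f (2 ^ (x + 1) * 335) = 2 ^ (x + 3) * 3 * 31 := by
  have hc : Nat.Coprime 5 67 := by norm_num
  have h1 : psi 335 = 408 ∧ Nat.totient 335 = 264 := by
    have h : (335 : ℕ) = 5 * 67 := by norm_num
    rw [h, psi_mul hc, Nat.totient_mul hc, psi_prime (by norm_num), psi_prime (by norm_num),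
      Nat.totient_prime (by norm_num), Nat.totient_prime (by norm_num)]
    norm_num
  rw [F2 x 335 744 (by norm_num) (by rw [h1.1, h1.2])]
  ring

/-- the orbit of `1488` doubles every seven steps -/
lemma orb (k : ℕ) : f^[7 * k] 1488 = 2 ^ k * 1488 := by
  induction k with
  | zero => simp
  | succ k ih =>
    have e : 7 * (k + 1) = 7 + 7 * k := by ring
    rw [e, Function.iterate_add_apply, ih]
    have a1 : 2 ^ k * 1488 = 2 ^ ((k + 3) + 1) * 3 ^ (0 + 1) * 31 := by ring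
    have a2 : 2 ^ ((k + 3) + 1) * 3 ^ (0 + 1) * 37 = 2 ^ ((k + 3) + 1) * 3 ^ (0 + 1) * 37 := rfl
    have a3 : 2 ^ ((k + 3) + 3) * 3 ^ (0 + 1) * 11 = 2 ^ ((k + 5) + 1) * 3 ^ (0 + 1) * 11 := by ring
    have a4 : 2 ^ ((k + 5) + 1) * 3 ^ 0 * 41 = 2 ^ ((k + 5) + 1) * 41 := by ring
    have a5 : 2 ^ (k + 5) * 83 = 2 ^ ((k + 4) + 1) * 83 := by ring
    have a6 : 2 ^ (k + 4) * 167 = 2 ^ ((k + 3) + 1) * 167 := by ring
    have a7 : 2 ^ (k + 3) * 335 = 2 ^ ((k + 2) + 1) * 335 := by ring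
    simp only [Function.iterate_succ_apply, Function.iterate_zero_apply]
    rw [a1, v31, v37, a3, v11, a4, w41, a5, w83, a6, w167, a7, w335]
    ring

/-- `2 ^ (k + 6) * 3 * 11` is in the orbit of `1488` -/
lemma good_base (k : ℕ) : Good (2 ^ (k + 6) * 3 * 11) := by
  refine ⟨0, 2 + 7 * k, ?_⟩
  rw [Function.iterate_zero_apply, Function.iterate_add_apply, orb]
  have a1 : 2 ^ k * 1488 = 2 ^ ((k + 3) + 1) * 3 ^ (0 + 1) * 31 := by ring
  simp only [Function.iterate_succ_apply, Function.iterate_zero_apply]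
  rw [a1, v31, v37]
  ring

/-- one period -/
lemma good_period (w z : ℕ) (h : Good (2 ^ (w + 6) * 3 ^ (z + 1) * 11)) :
    Good (2 ^ (w + 1) * 3 ^ (z + 3) * 11) := by
  refine good_of (v11 w (z + 2)) ?_
  refine good_of (v41 w (z + 1)) ?_
  refine good_of (v73 (w + 1) z) ?_
  refine good_of (v43 (w + 2) z) ?_
  refine good_of (v17 (w + 2) (z + 1)) ?_
  refine good_of (v31 (w + 3) z) ?_
  refine good_of (v37 (w + 3) z) ?_
  exact h

lemma good_odd (m w : ℕ) (h : 5 ≤ w + 5 * m) : Good (2 ^ (w + 1) * 3 ^ (2 * m + 1) * 11) := by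
  induction m generalizing w with
  | zero =>
    obtain ⟨k, rfl⟩ : ∃ k, w = k + 5 := ⟨w - 5, by omega⟩
    have := good_base k
    have e : 2 ^ (k + 5 + 1) * 3 ^ (2 * 0 + 1) * 11 = 2 ^ (k + 6) * 3 * 11 := by ring
    rwa [e]
  | succ m ih =>
    have h1 := ih (w + 5) (by omega)
    have e : 2 * (m + 1) + 1 = 2 * m + 3 := by ring
    rw [e]
    exact good_period w (2 * m) h1

/-- pure powers: the exponent of `2` goes down to `1` -/
lemma good_pure (x y : ℕ) (h : Good (2 ^ 1 * 3 ^ (x + y + 2))) : Good (2 ^ (x + 1) * 3 ^ (y + 2)) := by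
  induction x generalizing y with
  | zero =>
    have e : 0 + y + 2 = y + 2 := by ring
    rw [e] at h
    exact h
  | succ x ih =>
    refine good_of (v1 (x + 1) (y + 1)) ?_
    refine good_of (v7 x y) ?_
    have e : x + 1 + y + 2 = x + (y + 1) + 2 := by ring
    rw [e] at h
    exact ih (y + 1) h

lemma good_one (y : ℕ) (h : Good (2 ^ 1 * 3 ^ (y + 1) * 11)) : Good (2 ^ 1 * 3 ^ (y + 3)) := by
  refine good_of (v1 0 (y + 2)) ?_
  have e : 2 ^ 0 * 3 ^ (y + 2) * 7 = 3 ^ ((y + 1) + 1) * 7 := by ring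
  rw [e]
  refine good_of (u7 (y + 1)) ?_
  simpa using h

/-- the even case: reduction to the exponent two -/
lemma good_even (m w : ℕ) (h : Good (2 ^ (w + 5 * m + 1) * 3 ^ 2 * 11)) :
    Good (2 ^ (w + 1) * 3 ^ (2 * m + 2) * 11) := by
  induction m generalizing w with
  | zero => exact h
  | succ m ih =>
    have e : 2 * (m + 1) + 2 = 2 * m + 1 + 3 := by ring
    rw [e]
    refine good_period w (2 * m + 1) ?_
    have e2 : 2 ^ (w + 6) * 3 ^ (2 * m + 1 + 1) * 11 = 2 ^ ((w + 5) + 1) * 3 ^ (2 * m + 2) * 11 := by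
      ring
    rw [e2]
    apply ih
    have e3 : w + 5 + 5 * m + 1 = w + 5 * (m + 1) + 1 := by ring
    rw [e3]
    exact h

/-- the exponent two -/
lemma good_two (w : ℕ) (h : Good (2 ^ (w + 1) * 3 ^ 5)) : Good (2 ^ (w + 1) * 3 ^ 2 * 11) := by
  refine good_of (v11 w 1) ?_
  refine good_of (v41 w 0) ?_
  have e : 2 ^ (w + 2) * 3 ^ 0 * 73 = 2 ^ ((w + 1) + 1) * 73 := by ring
  rw [e]
  refine good_of (w73 (w + 1)) ?_
  have e2 : 2 ^ (w + 1) * 3 * 49 = 2 ^ (w + 1) * 3 ^ (0 + 1) * 49 := by ring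
  rw [e2]
  refine good_of (v49 w 0) ?_
  refine good_of (v7 w 2) ?_
  exact h

/-- `z ↦ 5 z / 2 - 2` -/
lemma good_step (m : ℕ) (h : Good (2 ^ 1 * 3 ^ (5 * m + 3) * 11)) :
    Good (2 ^ 1 * 3 ^ (2 * m + 2) * 11) := by
  apply good_even m 0
  have e : 0 + 5 * m + 1 = 5 * m + 1 := by ring
  rw [e]
  apply good_two
  have e2 : (3 : ℕ) ^ 5 = 3 ^ (3 + 2) := rfl
  rw [e2]
  apply good_pure
  have e3 : 5 * m + 3 + 2 = (5 * m + 2) + 3 := by ring
  rw [e3]
  exact good_one _ h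

/-- all exponents -/
lemma good_all (k u : ℕ) (hu : u % 2 = 1) : ∀ z : ℕ, 2 ≤ z → 3 * z = 2 ^ k * u + 4 →
    Good (2 ^ 1 * 3 ^ z * 11) := by
  induction k generalizing u with
  | zero =>
    intro z hz e
    obtain ⟨m, rfl⟩ : ∃ m, z = 2 * m + 1 := ⟨z / 2, by omega⟩
    exact good_odd m 0 (by omega)
  | succ k ih =>
    intro z hz e
    rw [pow_succ] at e
    obtain ⟨t, ht⟩ : ∃ t, t = 2 ^ k * u := ⟨_, rfl⟩
    have e1 : 2 ^ k * 2 * u = 2 * t := by rw [ht]; ring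
    rw [e1] at e
    obtain ⟨m, rfl⟩ : ∃ m, z = 2 * m + 2 := ⟨z / 2 - 1, by omega⟩
    apply good_step
    refine ih (5 * u) (by omega) (5 * m + 3) (by omega) ?_
    have e2 : 2 ^ k * (5 * u) = 5 * t := by rw [ht]; ring
    rw [e2]
    omega

lemma good_e (z : ℕ) (hz : 2 ≤ z) : Good (2 ^ 1 * 3 ^ z * 11) := by
  obtain ⟨k, u, hu, e⟩ := Nat.exists_eq_two_pow_mul_odd (n := 3 * z - 4) (by omega)
  exact good_all k u (Nat.odd_iff.1 hu) z hz (by omega)

/-- `2 ^ a * 3 ^ b`, `b ≥ 2` -/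
lemma good23 (x y : ℕ) (h : 2 ≤ x + y) : Good (2 ^ (x + 1) * 3 ^ (y + 2)) := by
  apply good_pure
  obtain ⟨t, ht⟩ : ∃ t, x + y = t + 2 := ⟨x + y - 2, by omega⟩
  have e : x + y + 2 = (t + 1) + 3 := by omega
  rw [e]
  exact good_one _ (good_e _ (by omega))

/-- `2 ^ a * 5` -/
lemma good5 (x : ℕ) : Good (2 ^ (x + 5) * 5) := by
  refine good_of (w5 (x + 4)) ?_
  refine good_of (w11 (x + 3)) ?_
  refine good_of (w23 (x + 2)) ?_
  refine good_of (w47 (x + 1)) ?_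
  refine good_of (w95 x) ?_
  exact good23 (x + 2) 1 (by omega)

/-- `2 ^ a * 3` -/
lemma good3 (x : ℕ) (hx : 3 ≤ x) : Good (2 ^ (x + 1) * 3) := by
  have e : 2 ^ (x + 1) * 3 = 2 ^ (x + 1) * 3 ^ (0 + 1) := by ring
  obtain ⟨t, rfl⟩ : ∃ t, x = t + 3 := ⟨x - 3, by omega⟩
  rw [e]
  refine good_of (v1 (t + 3) 0) ?_
  have e1 : 2 ^ (t + 3) * 3 ^ 0 * 7 = 2 ^ ((t + 2) + 1) * 7 := by ring
  rw [e1]
  refine good_of (w7 (t + 2)) ?_
  have e2 : 2 ^ (t + 2) * 3 * 5 = 2 ^ ((t + 1) + 1) * 3 ^ (0 + 1) * 5 := by ring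
  rw [e2]
  refine good_of (v5 (t + 1) 0) ?_
  have e3 : 2 ^ (t + 1 + 3) * 3 ^ 0 * 5 = 2 ^ (t + 4) * 5 := by ring
  rw [e3]
  rcases Nat.eq_zero_or_pos t with rfl | ht
  · -- `80`
    refine good_of (w5 3) ?_
    refine good_of (w11 2) ?_
    refine good_of (w23 1) ?_
    refine good_of (w47 0) ?_
    have e4 : 2 ^ 0 * 95 = 95 := by norm_num
    rw [e4]
    refine good_of f95 ?_
    have e5 : 96 = 2 ^ (4 + 1) * 3 ^ (0 + 1) := by norm_num
    rw [e5]
    refine good_of (v1 4 0) ?_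
    refine good_of (w7 3) ?_
    refine good_of (v5 2 0) ?_
    exact good5 0
  · obtain ⟨s, rfl⟩ : ∃ s, t = s + 1 := ⟨t - 1, by omega⟩
    exact good5 s

end Pool.Agent.E8helper66.PH
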